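import Mathlib

set_option autoImplicit false

/-!
# Shortest-paths preserving reweightings of directed acyclic graphs: definitions
-/

namespace Pool.Agent.R547.SP

/-- The weight of a path, given as the list of its vertices: the sum of the weights of the
consecutive pairs. -/
def pathWeight {V : Type} (w : V → V → ℝ) : List V → ℝ
  | [] => 0
  | [_] => 0
  | a :: b :: l => w a b + pathWeight w (b :: l)

/-- `p` is (the list of the vertices of) a directed path from `s` to `t` in the digraph with the
edge relation `E`. -/
def IsPath {V : Type} (E : V → V → Prop) (s t : V) (p : List V) : Prop :=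
  p.head? = some s ∧ p.getLast? = some t ∧ p.Nodup ∧ p.IsChain E

/-- `p` is a shortest path from `s` to `t` for the weights `w`. -/
def IsShortest {V : Type} (E : V → V → Prop) (w : V → V → ℝ) (s t : V) (p : List V) : Prop :=
  IsPath E s t p ∧ ∀ q, IsPath E s t q → pathWeight w p ≤ pathWeight w q

/-- There is no directed cycle. -/
def IsDAG {V : Type} (E : V → V → Prop) : Prop := ∀ v, ¬ Relation.TransGen E v v

/-- All edges have positive weight. -/
def PosWeights {V : Type} (E : V → V → Prop) (w : V → V → ℝ) : Prop :=
  ∀ u v, E u v → 0 < w u v

/-- The reweighting `w'` of the weighted digraph `(V, E, w)` is shortest-paths preserving: every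
path which is a shortest path between its endpoints for `w'` is a shortest path for `w`. -/
def Preserving {V : Type} (E : V → V → Prop) (w w' : V → V → ℝ) : Prop :=
  ∀ s t p, IsShortest E w' s t p → IsShortest E w s t p

end Pool.Agent.R547.SP
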