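import Pool.Agent.R547.SP.Defs

set_option autoImplicit false

/-!
# Shortest-paths preserving reweightings: comparing sources by sinks

Vertices: sources `S`, three middle vertices, sinks `T`. All edges from the sources to the middle
vertices are present. A sink `t` with `req t = (s, s', α, β)` has exactly the in-edges from `α` and
`β`, and its threshold lies between `a s α - a s β` and `a s' α - a s' β`.
-/

namespace Pool.Agent.R547.SP

/-- The vertices. -/
abbrev Vtx (S T : Type) : Type := S ⊕ (Fin 3 ⊕ T)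

variable {S T : Type}

/-- The edges. -/
def Edg (req : T → S × S × Fin 3 × Fin 3) : Vtx S T → Vtx S T → Prop
  | Sum.inl _, Sum.inr (Sum.inl _) => True
  | Sum.inr (Sum.inl m), Sum.inr (Sum.inr t) => m = (req t).2.2.1 ∨ m = (req t).2.2.2
  | _, _ => False

/-- The weights. -/
noncomputable def wgt (a : S → Fin 3 → ℝ) (M : ℝ) (req : T → S × S × Fin 3 × Fin 3) :
    Vtx S T → Vtx S T → ℝ
  | Sum.inl s, Sum.inr (Sum.inl m) => a s m
  | Sum.inr (Sum.inl m), Sum.inr (Sum.inr t) =>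
    if m = (req t).2.2.1 then M else
      M + ((a (req t).1 (req t).2.2.1 - a (req t).1 (req t).2.2.2) +
        (a (req t).2.1 (req t).2.2.1 - a (req t).2.1 (req t).2.2.2)) / 2
  | _, _ => 1

/-- The height of a vertex. -/
def ht : Vtx S T → ℕ
  | Sum.inl _ => 0
  | Sum.inr (Sum.inl _) => 1
  | Sum.inr (Sum.inr _) => 2

theorem edg_ht {req : T → S × S × Fin 3 × Fin 3} {u v : Vtx S T} (h : Edg req u v) :
    ht v = ht u + 1 := by
  rcases u with s | m | t <;> rcases v with s' | m' | t' <;> simp [Edg, ht] at h ⊢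

theorem isDAG (req : T → S × S × Fin 3 × Fin 3) : IsDAG (Edg req) := by
  intro v hv
  have key : ∀ u w : Vtx S T, Relation.TransGen (Edg req) u w → ht u < ht w := by
    intro u w h
    induction h with
    | single h => rw [edg_ht h]; omega
    | tail _ h ih => rw [edg_ht h]; omega
  exact lt_irrefl _ (key v v hv)

theorem isPath_iff (req : T → S × S × Fin 3 × Fin 3) (s : S) (t : T) (p : List (Vtx S T)) :
    IsPath (Edg req) (Sum.inl s) (Sum.inr (Sum.inr t)) p ↔
      ∃ m, (m = (req t).2.2.1 ∨ m = (req t).2.2.2) ∧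
        p = [Sum.inl s, Sum.inr (Sum.inl m), Sum.inr (Sum.inr t)] := by
  constructor
  · rintro ⟨h1, h2, -, h3⟩
    match p with
    | [] => simp at h1
    | [x] =>
      simp at h1 h2
      rw [h1] at h2
      simp at h2
    | [x, y] =>
      simp at h1 h2 h3
      subst h1 h2
      simp [Edg] at h3
    | [x, y, z] =>
      simp at h1 h2 h3
      obtain ⟨h3, h4⟩ := h3
      subst h1 h2
      rcases y with y | m | y
      · simp [Edg] at h3
      · exact ⟨m, h4, rfl⟩
      · simp [Edg] at h3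
    | x :: y :: z :: q :: l =>
      exfalso
      simp at h3
      obtain ⟨h4, h5, h6, -⟩ := h3
      have e1 := edg_ht h4
      have e2 := edg_ht h5
      have e3 := edg_ht h6
      have e4 : ht q ≤ 2 := by rcases q with q | q | q <;> simp [ht]
      omega
  · rintro ⟨m, hm, rfl⟩
    refine ⟨rfl, rfl, by simp, ?_⟩
    simp [Edg, hm]

theorem pathWeight_three (w : Vtx S T → Vtx S T → ℝ) (x y z : Vtx S T) :
    pathWeight w [x, y, z] = w x y + w y z := by
  simp [pathWeight]

/-- The winner at the sink `t` is the same for both weightings. -/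
theorem strict_of_preserving {a : S → Fin 3 → ℝ} {M : ℝ} {req : T → S × S × Fin 3 × Fin 3}
    {w' : Vtx S T → Vtx S T → ℝ} (h : Preserving (Edg req) (wgt a M req) w') (s : S) (t : T)
    (m m' : Fin 3) (hm : m = (req t).2.2.1 ∨ m = (req t).2.2.2)
    (hm' : m' = (req t).2.2.1 ∨ m' = (req t).2.2.2)
    (hall : ∀ x, (x = (req t).2.2.1 ∨ x = (req t).2.2.2) → x = m ∨ x = m')
    (hlt : a s m + wgt a M req (Sum.inr (Sum.inl m)) (Sum.inr (Sum.inr t)) <
      a s m' + wgt a M req (Sum.inr (Sum.inl m')) (Sum.inr (Sum.inr t))) :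
    w' (Sum.inl s) (Sum.inr (Sum.inl m)) + w' (Sum.inr (Sum.inl m)) (Sum.inr (Sum.inr t)) <
      w' (Sum.inl s) (Sum.inr (Sum.inl m')) + w' (Sum.inr (Sum.inl m')) (Sum.inr (Sum.inr t)) := by
  by_contra hcon
  push Not at hcon
  have h1 : IsShortest (Edg req) w' (Sum.inl s) (Sum.inr (Sum.inr t))
      [Sum.inl s, Sum.inr (Sum.inl m'), Sum.inr (Sum.inr t)] := by
    refine ⟨(isPath_iff req s t _).2 ⟨m', hm', rfl⟩, ?_⟩
    intro q hq
    obtain ⟨x, hx, rfl⟩ := (isPath_iff req s t _).1 hq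
    rw [pathWeight_three, pathWeight_three]
    rcases hall x hx with rfl | rfl
    · exact hcon
    · exact le_rfl
  have h2 := (h _ _ _ h1).2 _ ((isPath_iff req s t _).2 ⟨m, hm, rfl⟩)
  rw [pathWeight_three, pathWeight_three] at h2
  have h3 : ∀ x : Fin 3, wgt a M req (Sum.inl s) (Sum.inr (Sum.inl x)) = a s x := fun _ => rfl
  rw [h3, h3] at h2
  linarith

/-- Every sink preserves the comparison which it was made for. -/
theorem compare {a : S → Fin 3 → ℝ} {M : ℝ} {req : T → S × S × Fin 3 × Fin 3}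
    {w' : Vtx S T → Vtx S T → ℝ} (h : Preserving (Edg req) (wgt a M req) w') (t : T)
    (s s' : S) (α β : Fin 3) (hreq : req t = (s, s', α, β))
    (hlt : a s α - a s β < a s' α - a s' β) :
    w' (Sum.inl s) (Sum.inr (Sum.inl α)) - w' (Sum.inl s) (Sum.inr (Sum.inl β)) <
      w' (Sum.inl s') (Sum.inr (Sum.inl α)) - w' (Sum.inl s') (Sum.inr (Sum.inl β)) := by
  have hαβ : β ≠ α := by
    rintro rfl
    simp at hlt
  have hα : wgt a M req (Sum.inr (Sum.inl α)) (Sum.inr (Sum.inr t)) = M := by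
    simp [wgt, hreq]
  have hβ : wgt a M req (Sum.inr (Sum.inl β)) (Sum.inr (Sum.inr t)) =
      M + ((a s α - a s β) + (a s' α - a s' β)) / 2 := by
    simp [wgt, hreq, hαβ]
  have h1 := strict_of_preserving h s t α β (by simp [hreq]) (by simp [hreq])
    (by intro x hx; simpa [hreq] using hx) (by rw [hα, hβ]; linarith)
  have h2 := strict_of_preserving h s' t β α (by simp [hreq]) (by simp [hreq])
    (by intro x hx; rw [hreq] at hx; simpa [or_comm] using hx) (by rw [hα, hβ]; linarith)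
  linarith

/-! ### The sources -/

/-- The middle vertex which gives the main coordinate at level `k`. -/
def col (k : ℕ) : Fin 3 := if k % 2 = 0 then 1 else 2

theorem col_add_two (k : ℕ) : col (k + 2) = col k := by
  unfold col
  rw [Nat.add_mod_right]

theorem col_cases (k : ℕ) : (col k = 1 ∧ col (k + 1) = 2) ∨ (col k = 2 ∧ col (k + 1) = 1) := by
  unfold col
  rcases Nat.even_or_odd k with h | h
  · left
    rw [if_pos (Nat.even_iff.1 h), if_neg]
    · exact ⟨rfl, rfl⟩
    · have := Nat.even_iff.1 h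
      omega
  · right
    have := Nat.odd_iff.1 h
    rw [if_neg (by omega), if_pos (by omega)]
    exact ⟨rfl, rfl⟩

/-- The main coordinate of the point `j` at level `k`. -/
noncomputable def cu (k : ℕ) (j : Fin 4) : ℝ :=
  if j = 0 then -4 ^ (k + 1) else if j = 1 then -1 else if j = 2 then 1 else 4 ^ (k + 1)

/-- The other coordinate of the point `j` at level `k`. -/
noncomputable def cv (k : ℕ) (j : Fin 4) : ℝ :=
  if j = 0 then -(4 ^ k + 1) else if j = 1 then 4 ^ k + 1 else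
    if j = 2 then -(4 ^ k + 1) else 4 ^ k + 1

/-- The weights of the edges at the source `(k, j)`. -/
noncomputable def aw (M : ℝ) (k : ℕ) (j : Fin 4) (m : Fin 3) : ℝ :=
  if m = 0 then M else if m = col k then M - cu k j else M - cv k j

theorem aw_zero (M : ℝ) (k : ℕ) (j : Fin 4) : aw M k j 0 = M := by simp [aw]

theorem aw_u (M : ℝ) (k : ℕ) (j : Fin 4) : aw M k j (col k) = M - cu k j := by
  rcases col_cases k with ⟨h, -⟩ | ⟨h, -⟩ <;> simp [aw, h]

theorem aw_v (M : ℝ) (k : ℕ) (j : Fin 4) : aw M k j (col (k + 1)) = M - cv k j := by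
  rcases col_cases k with ⟨h, h'⟩ | ⟨h, h'⟩ <;> simp [aw, h, h']

/-- The sources. -/
abbrev Src (K : ℕ) : Type := Fin (K + 1) × Fin 4

/-- The sinks. -/
abbrev Snk (K : ℕ) : Type := Fin (K + 1) × Fin 7

/-- The source `(k, j)`. -/
def pt (K k : ℕ) (hk : k < K + 1) (j : Fin 4) : Src K := (⟨k, hk⟩, j)

/-- The comparisons. -/
def req (K : ℕ) : Snk K → Src K × Src K × Fin 3 × Fin 3
  | (⟨0, h⟩, _) => (pt K 0 h 0, pt K 0 h 3, 0, col 0)
  | (⟨k + 1, h⟩, j) =>
    if j = 0 then (pt K (k + 1) h 0, pt K k (by omega) 0, 0, col k) else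
    if j = 1 then (pt K k (by omega) 3, pt K (k + 1) h 1, 0, col k) else
    if j = 2 then (pt K (k + 1) h 2, pt K k (by omega) 0, 0, col k) else
    if j = 3 then (pt K k (by omega) 3, pt K (k + 1) h 3, 0, col k) else
    if j = 4 then (pt K (k + 1) h 1, pt K (k + 1) h 2, 0, col (k + 1)) else
    if j = 5 then (pt K (k + 1) h 0, pt K (k + 1) h 1, col k, col (k + 1)) else
    (pt K (k + 1) h 2, pt K (k + 1) h 3, col k, col (k + 1))

/-- The weights at the sources. -/
noncomputable def asrc (K : ℕ) (s : Src K) (m : Fin 3) : ℝ := aw (4 ^ (K + 2)) s.1.1 s.2 m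

/-- The weighted DAG. -/
noncomputable def wg (K : ℕ) : Vtx (Src K) (Snk K) → Vtx (Src K) (Snk K) → ℝ :=
  wgt (asrc K) (4 ^ (K + 3)) (req K)

theorem cu_bound (k : ℕ) (j : Fin 4) : cu k j ≤ 4 ^ (k + 1) ∧ -4 ^ (k + 1) ≤ cu k j := by
  have h : (1 : ℝ) ≤ 4 ^ (k + 1) := one_le_pow₀ (by norm_num)
  unfold cu
  split_ifs <;> constructor <;> linarith

theorem cv_bound (k : ℕ) (j : Fin 4) : cv k j ≤ 4 ^ (k + 1) ∧ -4 ^ (k + 1) ≤ cv k j := by
  have h : (1 : ℝ) ≤ 4 ^ k := one_le_pow₀ (by norm_num)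
  have h2 : (4 : ℝ) ^ (k + 1) = 4 * 4 ^ k := by ring
  unfold cv
  rw [h2]
  split_ifs <;> constructor <;> linarith

theorem aw_bound (K k : ℕ) (hk : k < K + 1) (j : Fin 4) (m : Fin 3) :
    0 < aw (4 ^ (K + 2)) k j m ∧ aw (4 ^ (K + 2)) k j m < 2 * 4 ^ (K + 2) := by
  have h0 : (4 : ℝ) ^ (k + 1) < 4 ^ (K + 2) := pow_lt_pow_right₀ (by norm_num) (by omega)
  have h00 : (0 : ℝ) < 4 ^ (K + 2) := by positivity
  have h1 := cu_bound k j
  have h2 := cv_bound k j
  unfold aw
  split_ifs <;> constructor <;> linarith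

theorem pos_wg (K : ℕ) : PosWeights (Edg (req K)) (wg K) := by
  intro u v h
  rcases u with s | m | t <;> rcases v with s' | m' | t' <;> simp [Edg] at h
  · exact (aw_bound K s.1.1 s.1.2 s.2 m').1
  · simp only [wg, wgt]
    split_ifs
    · positivity
    · have hb : ∀ (s : Src K) (m : Fin 3), 0 < asrc K s m ∧ asrc K s m < 2 * 4 ^ (K + 2) :=
        fun s m => aw_bound K s.1.1 s.1.2 s.2 m
      have h1 := hb (req K t').1 (req K t').2.2.1
      have h2 := hb (req K t').1 (req K t').2.2.2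
      have h3 := hb (req K t').2.1 (req K t').2.2.1
      have h4 := hb (req K t').2.1 (req K t').2.2.2
      have h5 : (4 : ℝ) ^ (K + 3) = 4 * 4 ^ (K + 2) := by ring
      rw [h5]
      have h00 : (0 : ℝ) < 4 ^ (K + 2) := by positivity
      linarith

section

variable {K : ℕ} {w' : Vtx (Src K) (Snk K) → Vtx (Src K) (Snk K) → ℝ}

/-- The coordinate of a source which belongs to the middle vertex `c`. -/
def co (w' : Vtx (Src K) (Snk K) → Vtx (Src K) (Snk K) → ℝ) (s : Src K) (c : Fin 3) : ℝ :=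
  w' (Sum.inl s) (Sum.inr (Sum.inl 0)) - w' (Sum.inl s) (Sum.inr (Sum.inl c))

theorem base (h : Preserving (Edg (req K)) (wg K) w') :
    co w' (pt K 0 (by omega) 0) (col 0) < co w' (pt K 0 (by omega) 3) (col 0) := by
  refine compare h (⟨0, by omega⟩, 0) _ _ _ _ rfl ?_
  show aw _ 0 0 0 - aw _ 0 0 (col 0) < aw _ 0 3 0 - aw _ 0 3 (col 0)
  rw [aw_zero, aw_zero, aw_u, aw_u]
  simp [cu]

theorem step (h : Preserving (Edg (req K)) (wg K) w') (k : ℕ) (hk : k + 1 < K + 1) :
    let P := pt K (k + 1) hk 0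
    let Q := pt K (k + 1) hk 1
    let R := pt K (k + 1) hk 2
    let S := pt K (k + 1) hk 3
    let P' := pt K k (by omega) 0
    let S' := pt K k (by omega) 3
    co w' P (col k) < co w' P' (col k) ∧ co w' S' (col k) < co w' Q (col k) ∧
    co w' R (col k) < co w' P' (col k) ∧ co w' S' (col k) < co w' S (col k) ∧
    co w' Q (col (k + 1)) < co w' R (col (k + 1)) ∧
    co w' P (col (k + 1)) - co w' P (col k) < co w' Q (col (k + 1)) - co w' Q (col k) ∧
    co w' R (col (k + 1)) - co w' R (col k) < co w' S (col (k + 1)) - co w' S (col k) := by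
  intro P Q R S P' S'
  have hc : col k = col (k + 1 + 1) := (col_add_two k).symm
  have h4 : (1 : ℝ) ≤ 4 ^ k := one_le_pow₀ (by norm_num)
  have h41 : (4 : ℝ) ^ (k + 1) = 4 * 4 ^ k := by ring
  have h42 : (4 : ℝ) ^ (k + 1 + 1) = 16 * 4 ^ k := by ring
  refine ⟨?_, ?_, ?_, ?_, ?_, ?_, ?_⟩
  · refine compare h (⟨k + 1, hk⟩, 0) _ _ _ _ rfl ?_
    show aw _ (k + 1) 0 0 - aw _ (k + 1) 0 (col k) < aw _ k 0 0 - aw _ k 0 (col k)
    rw [aw_zero, aw_zero, aw_u, hc, aw_v]
    simp [cu, cv]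
  · refine compare h (⟨k + 1, hk⟩, 1) _ _ _ _ rfl ?_
    show aw _ k 3 0 - aw _ k 3 (col k) < aw _ (k + 1) 1 0 - aw _ (k + 1) 1 (col k)
    rw [aw_zero, aw_zero, aw_u, hc, aw_v]
    simp [cu, cv]
  · refine compare h (⟨k + 1, hk⟩, 2) _ _ _ _ rfl ?_
    show aw _ (k + 1) 2 0 - aw _ (k + 1) 2 (col k) < aw _ k 0 0 - aw _ k 0 (col k)
    rw [aw_zero, aw_zero, aw_u, hc, aw_v]
    simp [cu, cv]
  · refine compare h (⟨k + 1, hk⟩, 3) _ _ _ _ rfl ?_
    show aw _ k 3 0 - aw _ k 3 (col k) < aw _ (k + 1) 3 0 - aw _ (k + 1) 3 (col k)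
    rw [aw_zero, aw_zero, aw_u, hc, aw_v]
    simp [cu, cv]
  · refine compare h (⟨k + 1, hk⟩, 4) _ _ _ _ rfl ?_
    show aw _ (k + 1) 1 0 - aw _ (k + 1) 1 (col (k + 1)) <
      aw _ (k + 1) 2 0 - aw _ (k + 1) 2 (col (k + 1))
    rw [aw_zero, aw_zero, aw_u, aw_u]
    simp [cu]
  · have h1 := compare h (⟨k + 1, hk⟩, 5) (pt K (k + 1) hk 0) (pt K (k + 1) hk 1) (col k)
      (col (k + 1)) rfl (by
        show aw _ (k + 1) 0 (col k) - aw _ (k + 1) 0 (col (k + 1)) <
          aw _ (k + 1) 1 (col k) - aw _ (k + 1) 1 (col (k + 1))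
        rw [aw_u, aw_u, hc, aw_v, aw_v]
        simp [cu, cv]
        rw [h41, h42]
        linarith)
    simp only [co]
    linarith
  · have h1 := compare h (⟨k + 1, hk⟩, 6) (pt K (k + 1) hk 2) (pt K (k + 1) hk 3) (col k)
      (col (k + 1)) rfl (by
        show aw _ (k + 1) 2 (col k) - aw _ (k + 1) 2 (col (k + 1)) <
          aw _ (k + 1) 3 (col k) - aw _ (k + 1) 3 (col (k + 1))
        rw [aw_u, aw_u, hc, aw_v, aw_v]
        simp [cu, cv]
        rw [h41, h42]
        linarith)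
    simp only [co]
    linarith

/-- The gaps grow exponentially. -/
theorem gap (h : Preserving (Edg (req K)) (wg K) w') (δ : ℝ)
    (hδ : δ ≤ co w' (pt K 0 (by omega) 3) (col 0) - co w' (pt K 0 (by omega) 0) (col 0)) (k : ℕ) :
    ∀ hk : k < K + 1, 2 ^ k * δ ≤ co w' (pt K k hk 3) (col k) - co w' (pt K k hk 0) (col k) := by
  induction k with
  | zero => intro _; simpa using hδ
  | succ k ih =>
    intro hk
    have h1 := ih (by omega)
    obtain ⟨s1, s2, s3, s4, s5, s6, s7⟩ := step h k hk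
    rw [pow_succ]
    linarith

end

end Pool.Agent.R547.SP
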